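import Pool.Agent.Lead.Ek.Defs

/-! # P2: non-evasive links give elementary moves -/

set_option autoImplicit false

namespace Pool.Agent.Helper58.Ek

open Finset Pool.Agent.Lead.Ek

variable {α : Type} [DecidableEq α] [Fintype α]

theorem cx_diff_up {K : Set (Finset α)} (hK : Cx K) (S : Finset α) : Cx (K \ {X | S ⊆ X}) := by
  intro X hX Y hY
  exact ⟨hK X hX.1 Y hY, fun h => hX.2 (fun a ha => hY (h ha))⟩

/-- The cone case. -/
theorem irr_moves (b : ℕ) (S : Finset α) (x : α) (hxS : x ∉ S) :
    ∀ (n : ℕ) (K : Set (Finset α)), Set.ncard {X | X ∈ K ∧ S ⊆ X} = n → Cx K →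
      (∀ X ∈ K, b ≤ Xᶜ.card) →
      (∀ X, S ⊆ X → x ∉ X → (X ∈ K → insert x X ∈ K)) →
      MvStar 0 b (K \ {X | S ⊆ X}) K := by
  intro n
  induction n using Nat.strong_induction_on with
  | _ n ih =>
    intro K hn hK hb hirr
    by_cases hne : ∃ X, X ∈ K ∧ S ⊆ X
    · -- a maximal face not containing `x`
      have hfin : Set.Finite {X : Finset α | X ∈ K ∧ S ⊆ X ∧ x ∉ X} := Set.toFinite _
      have hnon : ({X : Finset α | X ∈ K ∧ S ⊆ X ∧ x ∉ X}).Nonempty := by
        obtain ⟨X, hX, hSX⟩ := hne
        refine ⟨X.erase x, hK X hX _ (Finset.erase_subset _ _), ?_, Finset.notMem_erase _ _⟩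
        intro a ha
        exact Finset.mem_erase.mpr ⟨fun h => hxS (h ▸ ha), hSX ha⟩
      obtain ⟨F, hF, hmax⟩ := Set.exists_max_image _ (fun X : Finset α => X.card) hfin hnon
      obtain ⟨hFK, hSF, hxF⟩ := hF
      have hFx : insert x F ∈ K := hirr F hSF hxF hFK
      -- the faces above `F`
      have habove : ∀ X ∈ K, F ⊆ X → X = F ∨ X = insert x F := by
        intro X hX hFX
        by_cases hx : x ∈ X
        · right
          have h1 : X.erase x ∈ {X : Finset α | X ∈ K ∧ S ⊆ X ∧ x ∉ X} := by
            refine ⟨hK X hX _ (Finset.erase_subset _ _), ?_, Finset.notMem_erase _ _⟩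
            intro a ha
            exact Finset.mem_erase.mpr ⟨fun h => hxS (h ▸ ha), hFX (hSF ha)⟩
          have h2 : F ⊆ X.erase x := fun a ha =>
            Finset.mem_erase.mpr ⟨fun h => hxF (h ▸ ha), hFX ha⟩
          have h3 : X.erase x = F := (Finset.eq_of_subset_of_card_le h2 (hmax _ h1)).symm
          rw [← h3, Finset.insert_erase hx]
        · left
          exact (Finset.eq_of_subset_of_card_le hFX
            (hmax X ⟨hX, fun a ha => hFX (hSF ha), hx⟩)).symm
      set K' : Set (Finset α) := K \ {F, insert x F} with hK'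
      have hcx' : Cx K' := by
        intro X hX Y hY
        refine ⟨hK X hX.1 Y hY, ?_⟩
        rintro (rfl | h)
        · rcases habove X hX.1 hY with h | h
          · exact hX.2 (by simp [h])
          · exact hX.2 (by simp [h])
        · rw [Set.mem_singleton_iff] at h
          subst h
          rcases habove X hX.1 (fun a ha => hY (Finset.mem_insert_of_mem ha)) with h | h
          · exact hX.2 (by simp [h])
          · exact hX.2 (by simp [h])
      have hlt : Set.ncard {X | X ∈ K' ∧ S ⊆ X} < n := by
        rw [← hn]
        apply Set.ncard_lt_ncard _ (Set.toFinite _)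
        refine ⟨fun X hX => ⟨hX.1.1, hX.2⟩, ?_⟩
        intro hcon
        have := hcon (show F ∈ {X | X ∈ K ∧ S ⊆ X} from ⟨hFK, hSF⟩)
        exact this.1.2 (by simp)
      have hirr' : ∀ X, S ⊆ X → x ∉ X → (X ∈ K' → insert x X ∈ K') := by
        intro X hSX hxX hX
        refine ⟨hirr X hSX hxX hX.1, ?_⟩
        rintro (h | h)
        · exact hxF (h ▸ Finset.mem_insert_self x X)
        · rw [Set.mem_singleton_iff] at h
          apply hX.2
          left
          have h1 : (insert x X).erase x = (insert x F).erase x := by rw [h]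
          rwa [Finset.erase_insert hxX, Finset.erase_insert hxF] at h1
      have hrec := ih _ hlt K' rfl hcx' (fun X hX => hb X hX.1) hirr'
      have heq : K' \ {X | S ⊆ X} = K \ {X | S ⊆ X} := by
        ext X
        constructor
        · rintro ⟨h1, h2⟩
          exact ⟨h1.1, h2⟩
        · rintro ⟨h1, h2⟩
          refine ⟨⟨h1, ?_⟩, h2⟩
          rintro (rfl | h)
          · exact h2 hSF
          · rw [Set.mem_singleton_iff] at h
            subst h
            exact h2 (fun a ha => Finset.mem_insert_of_mem (hSF ha))
      rw [heq] at hrec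
      refine Relation.ReflTransGen.tail hrec ?_
      refine ⟨F, x, hxF, Nat.zero_le _, hb _ hFx, ?_, ?_, ?_, ?_⟩
      · intro h; exact h.2 (by simp)
      · intro h; exact h.2 (by simp)
      · intro t ht
        have htx : t ≠ x := fun h => hxF (h ▸ ht)
        refine ⟨hK _ hFx _ (Finset.insert_subset_insert _ (Finset.erase_subset _ _)), ?_⟩
        rintro (h | h)
        · exact hxF (h ▸ Finset.mem_insert_self x _)
        · rw [Set.mem_singleton_iff] at h
          have : t ∈ insert x (F.erase t) := h ▸ Finset.mem_insert_of_mem ht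
          rw [Finset.mem_insert, Finset.mem_erase] at this
          rcases this with h | h
          · exact htx h
          · exact h.1 rfl
      · ext X
        constructor
        · intro hX
          by_cases h : X ∈ ({F, insert x F} : Set (Finset α))
          · exact Or.inr h
          · exact Or.inl ⟨hX, h⟩
        · rintro (h | h)
          · exact h.1
          · rcases h with rfl | h
            · exact hFK
            · rw [Set.mem_singleton_iff] at h
              rw [h]; exact hFx
    · have : K \ {X | S ⊆ X} = K := by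
        ext X
        constructor
        · exact fun h => h.1
        · exact fun h => ⟨h, fun h' => hne ⟨X, h, h'⟩⟩
      rw [this]
      exact Relation.ReflTransGen.refl

theorem ne_moves_aux (b : ℕ) (N : Set (Finset α)) (R : Finset α) (hN : NE N R) :
    ∀ (K : Set (Finset α)) (S : Finset α), Cx K → Disjoint R S →
      (∀ X ∈ K, S ⊆ X → X ⊆ S ∪ R) → (∀ X ∈ K, b ≤ Xᶜ.card) →
      (∀ X ⊆ R, (X ∈ N ↔ X ∪ S ∈ K)) → MvStar 0 b (K \ {X | S ⊆ X}) K := by
  induction hN with
  | irr N R x hx h =>
    intro K S hK hdis hR hb hlink
    have hxS : x ∉ S := Finset.disjoint_left.mp hdis hx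
    refine irr_moves b S x hxS _ K rfl hK hb ?_
    intro X hSX hxX hX
    have hXR : X ⊆ S ∪ R := hR X hX hSX
    have h1 : X \ S ⊆ R.erase x := by
      intro a ha
      rw [Finset.mem_sdiff] at ha
      rw [Finset.mem_erase]
      refine ⟨fun h => hxX (h ▸ ha.1), ?_⟩
      have := hXR ha.1
      rw [Finset.mem_union] at this
      tauto
    have h2 : X \ S ∪ S = X := Finset.sdiff_union_of_subset hSX
    have h3 : X \ S ∈ N := by
      rw [hlink _ (h1.trans (Finset.erase_subset _ _)), h2]; exact hX
    have h4 := (h _ h1).mp h3
    rw [hlink _ (Finset.insert_subset hx (h1.trans (Finset.erase_subset _ _))),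
      Finset.insert_union, h2] at h4
    exact h4
  | split N R x hx h0 h1 ih0 ih1 =>
    intro K S hK hdis hR hb hlink
    have hxS : x ∉ S := Finset.disjoint_left.mp hdis hx
    have hdis' : Disjoint (R.erase x) S := hdis.mono_left (Finset.erase_subset _ _)
    -- step A
    have hA : MvStar 0 b (K \ {X | insert x S ⊆ X}) K := by
      refine ih1 K (insert x S) hK ?_ ?_ hb ?_
      · rw [Finset.disjoint_insert_right]
        exact ⟨Finset.notMem_erase _ _, hdis'⟩
      · intro X hX hSX a ha
        have := hR X hX (fun c hc => hSX (Finset.mem_insert_of_mem hc)) ha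
        rw [Finset.mem_union] at this ⊢
        rw [Finset.mem_insert, Finset.mem_erase]
        tauto
      · intro X hX
        have hXR : insert x X ⊆ R :=
          Finset.insert_subset hx (hX.trans (Finset.erase_subset _ _))
        have h2 : X ∪ insert x S = insert x X ∪ S := by
          rw [Finset.union_insert, Finset.insert_union]
        rw [h2]
        exact hlink _ hXR
    -- step B
    have hB : MvStar 0 b ((K \ {X | insert x S ⊆ X}) \ {X | S ⊆ X})
        (K \ {X | insert x S ⊆ X}) := by
      refine ih0 _ S (cx_diff_up hK _) hdis' ?_ (fun X hX => hb X hX.1) ?_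
      · intro X hX hSX a ha
        have := hR X hX.1 hSX ha
        rw [Finset.mem_union] at this ⊢
        rw [Finset.mem_erase]
        rcases this with h | h
        · exact Or.inl h
        · right
          refine ⟨?_, h⟩
          rintro rfl
          exact hX.2 (Finset.insert_subset ha hSX)
      · intro X hX
        rw [hlink X (hX.trans (Finset.erase_subset _ _))]
        constructor
        · intro h
          refine ⟨h, fun h' => ?_⟩
          have h2 : x ∈ X ∪ S := h' (Finset.mem_insert_self _ _)
          rw [Finset.mem_union] at h2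
          rcases h2 with h2 | h2
          · exact Finset.notMem_erase _ _ (hX h2)
          · exact hxS h2
        · exact fun h => h.1
    have hEq : (K \ {X | insert x S ⊆ X}) \ {X | S ⊆ X} = K \ {X | S ⊆ X} := by
      ext X
      constructor
      · rintro ⟨h1, h2⟩
        exact ⟨h1.1, h2⟩
      · rintro ⟨h1, h2⟩
        exact ⟨⟨h1, fun h => h2 (fun a ha => h (Finset.mem_insert_of_mem ha))⟩, h2⟩
    rw [hEq] at hB
    exact Relation.ReflTransGen.trans hB hA

theorem neMoves : P2_neMoves := by
  intro α _ _ b K R S hK hdis hR hb hN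
  exact ne_moves_aux b _ R hN K S hK hdis hR hb (fun X _ => Iff.rfl)

theorem cx_restr {K : Set (Finset α)} (hK : Cx K) (R : Finset α) : Cx (restr K R) :=
  fun X hX Y hY => ⟨hK X hX.1 Y hY, hY.trans hX.2⟩

theorem redMoves : P2_redMoves := by
  intro α _ _ b K R R0 hK hb hR hred
  induction hred with
  | refl R => exact Relation.ReflTransGen.refl
  | step R R0 x hx hx0 h h' ih =>
    have hR' : R0 ⊆ R.erase x := fun a ha =>
      Finset.mem_erase.mpr ⟨fun e => hx0 (e ▸ ha), hR ha⟩
    refine Relation.ReflTransGen.trans (ih hR') ?_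
    have key := ne_moves_aux b _ (R.erase x) h (restr K R) {x} (cx_restr hK R)
      (by simp) ?_ (fun X hX => hb X hX.1) ?_
    · have hEq : restr K R \ {X | {x} ⊆ X} = restr K (R.erase x) := by
        ext X
        constructor
        · rintro ⟨⟨h1, h2⟩, h3⟩
          refine ⟨h1, fun a ha => Finset.mem_erase.mpr ⟨?_, h2 ha⟩⟩
          rintro rfl
          exact h3 (by simpa using ha)
        · rintro ⟨h1, h2⟩
          refine ⟨⟨h1, h2.trans (Finset.erase_subset _ _)⟩, ?_⟩
          intro h3
          exact Finset.notMem_erase x R (h2 (h3 (Finset.mem_singleton_self x)))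
      rw [hEq] at key
      exact key
    · intro X hX _ a ha
      rw [Finset.mem_union, Finset.mem_singleton, Finset.mem_erase]
      by_cases hax : a = x
      · exact Or.inl hax
      · exact Or.inr ⟨hax, hX.2 ha⟩
    · intro X hX
      have h2 : X ∪ {x} = insert x X := by
        rw [Finset.union_comm]; rfl
      rw [h2]
      constructor
      · intro h
        exact ⟨h, Finset.insert_subset hx (hX.trans (Finset.erase_subset _ _))⟩
      · exact fun h => h.1

end Pool.Agent.Helper58.Ek
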